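import Pool.Agent.H92.Simp.Quart

/-!
# Arithmetic of Heron triangles and tetrahedra at the primes `2`, `3` and `p ≡ 3 mod 4`
-/

set_option autoImplicit false

namespace Pool.Agent.H92.Simp

/-- If `p = 2` or `p ≡ 3 mod 4` and `p` divides two sides of an integral triangle whose `4 * area`
is an integer, then `p` divides the third. -/
lemma heron_dvd_one {p : ℕ} [hp : Fact p.Prime] (hp4 : p = 2 ∨ p % 4 = 3) {A B C S : ℤ}
    (h : S ^ 2 = 4 * A ^ 2 * B ^ 2 - (A ^ 2 + B ^ 2 - C ^ 2) ^ 2) (hA : (p : ℤ) ∣ A)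
    (hB : (p : ℤ) ∣ B) : (p : ℤ) ∣ C := by
  rcases hp4 with rfl | hp4
  · obtain ⟨a, rfl⟩ := hA
    obtain ⟨b, rfl⟩ := hB
    by_contra hC
    have h1 : ((S : ℤ) : ZMod 4) ^ 2 = 4 * (2 * (a : ZMod 4)) ^ 2 * (2 * (b : ZMod 4)) ^ 2
        - ((2 * (a : ZMod 4)) ^ 2 + (2 * (b : ZMod 4)) ^ 2 - (C : ZMod 4) ^ 2) ^ 2 := by
      have := congrArg (fun z : ℤ => (z : ZMod 4)) h
      push_cast at this
      exact this
    obtain ⟨c, hc⟩ : ∃ c, C = 2 * c + 1 := ⟨C / 2, by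
      have : ¬ (2 : ℤ) ∣ C := hC
      omega⟩
    rw [hc] at h1
    push_cast at h1
    have key : ∀ s a b c : ZMod 4, s ^ 2 ≠ 4 * (2 * a) ^ 2 * (2 * b) ^ 2
        - ((2 * a) ^ 2 + (2 * b) ^ 2 - (2 * c + 1) ^ 2) ^ 2 := by decide
    exact key _ _ _ _ h1
  · have hA' : (A : ZMod p) = 0 := (ZMod.intCast_zmod_eq_zero_iff_dvd A p).2 hA
    have hB' : (B : ZMod p) = 0 := (ZMod.intCast_zmod_eq_zero_iff_dvd B p).2 hB
    rw [← ZMod.intCast_zmod_eq_zero_iff_dvd]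
    by_contra hC
    have h1 : (S : ZMod p) ^ 2 = - ((C : ZMod p) ^ 2) ^ 2 := by
      have := congrArg (fun z : ℤ => (z : ZMod p)) h
      push_cast at this
      rw [hA', hB'] at this
      rw [this]; ring
    have h2 : ((S : ZMod p) / (C : ZMod p) ^ 2) ^ 2 = -1 := by
      rw [div_pow, h1]
      field_simp
    exact absurd hp4 (ZMod.mod_four_ne_three_of_sq_eq_neg_one h2)

lemma heron_dvd {p : ℕ} [hp : Fact p.Prime] (hp4 : p = 2 ∨ p % 4 = 3) (m : ℕ) :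
    ∀ {A B C S : ℤ}, S ^ 2 = 4 * A ^ 2 * B ^ 2 - (A ^ 2 + B ^ 2 - C ^ 2) ^ 2 →
      (p : ℤ) ^ m ∣ A → (p : ℤ) ^ m ∣ B → (p : ℤ) ^ m ∣ C := by
  induction m with
  | zero => intro A B C S _ _ _; simp
  | succ m ih =>
    intro A B C S h hA hB
    have hp0 : (p : ℤ) ≠ 0 := by exact_mod_cast hp.out.ne_zero
    have hA1 : (p : ℤ) ∣ A := (dvd_pow_self _ (Nat.succ_ne_zero m)).trans hA
    have hB1 : (p : ℤ) ∣ B := (dvd_pow_self _ (Nat.succ_ne_zero m)).trans hB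
    have hC1 := heron_dvd_one hp4 h hA1 hB1
    obtain ⟨a, rfl⟩ := hA1
    obtain ⟨b, rfl⟩ := hB1
    obtain ⟨c, rfl⟩ := hC1
    have hS : ((p : ℤ) ^ 2) ^ 2 ∣ S ^ 2 :=
      ⟨4 * a ^ 2 * b ^ 2 - (a ^ 2 + b ^ 2 - c ^ 2) ^ 2, by rw [h]; ring⟩
    obtain ⟨s, rfl⟩ := (Int.pow_dvd_pow_iff two_ne_zero).1 hS
    have h' : s ^ 2 = 4 * a ^ 2 * b ^ 2 - (a ^ 2 + b ^ 2 - c ^ 2) ^ 2 := by
      have : (p : ℤ) ^ 4 ≠ 0 := pow_ne_zero _ hp0
      apply mul_left_cancel₀ this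
      linear_combination h
    have e : (p : ℤ) ^ (m + 1) = p * p ^ m := by ring
    rw [e] at hA hB ⊢
    exact mul_dvd_mul_left _ (ih h' ((mul_dvd_mul_iff_left hp0).1 hA) ((mul_dvd_mul_iff_left hp0).1 hB))

/-- three odd integers are not the sides of a triangle with integral `4 * area` -/
lemma heron_odd {A B C S : ℤ} (h : S ^ 2 = 4 * A ^ 2 * B ^ 2 - (A ^ 2 + B ^ 2 - C ^ 2) ^ 2)
    (hA : ¬ (2 : ℤ) ∣ A) (hB : ¬ (2 : ℤ) ∣ B) (hC : ¬ (2 : ℤ) ∣ C) : False := by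
  obtain ⟨a, rfl⟩ : ∃ c, A = 2 * c + 1 := ⟨A / 2, by omega⟩
  obtain ⟨b, rfl⟩ : ∃ c, B = 2 * c + 1 := ⟨B / 2, by omega⟩
  obtain ⟨c, rfl⟩ : ∃ c, C = 2 * c + 1 := ⟨C / 2, by omega⟩
  have h1 := congrArg (fun z : ℤ => (z : ZMod 4)) h
  push_cast at h1
  have key : ∀ s a b c : ZMod 4, s ^ 2 ≠ 4 * (2 * a + 1) ^ 2 * (2 * b + 1) ^ 2
        - ((2 * a + 1) ^ 2 + (2 * b + 1) ^ 2 - (2 * c + 1) ^ 2) ^ 2 := by decide
  exact key _ _ _ _ h1

/-- a rational number whose square is an integer is an integer -/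
lemma exists_int_of_sq {s : ℚ} {n : ℤ} (h : s ^ 2 = n) : ∃ m : ℤ, s = m := by
  have h1 : IsIntegral ℤ s := by
    refine ⟨Polynomial.X ^ 2 - Polynomial.C n, Polynomial.monic_X_pow_sub_C n two_ne_zero, ?_⟩
    rw [Polynomial.eval₂_sub, Polynomial.eval₂_pow, Polynomial.eval₂_X, Polynomial.eval₂_C, h]
    simp
  exact (IsIntegrallyClosed.isIntegral_iff.1 h1).imp fun m hm => by simpa using hm.symm

lemma int_norm {p : ℕ} [Fact p.Prime] {z : ℤ} (hz : z ≠ 0) :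
    ∃ v : ℕ, padicNorm p (z : ℚ) = (p : ℚ) ^ (-(v : ℤ)) := by
  refine ⟨padicValInt p z, ?_⟩
  rw [padicNorm.eq_zpow_of_nonzero (by exact_mod_cast hz), padicValRat.of_int]

lemma max_int_norm {p : ℕ} [hp : Fact p.Prime] (hp4 : p = 2 ∨ p % 4 = 3) {A B C S : ℤ}
    (h : S ^ 2 = 4 * A ^ 2 * B ^ 2 - (A ^ 2 + B ^ 2 - C ^ 2) ^ 2) :
    padicNorm p (C : ℚ) ≤ max (padicNorm p (A : ℚ)) (padicNorm p (B : ℚ)) := by
  by_cases h0 : A = 0 ∧ B = 0
  · obtain ⟨rfl, rfl⟩ := h0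
    have hC : C = 0 := by
      have h1 : S ^ 2 + (C ^ 2) ^ 2 = 0 := by linear_combination h
      have h2 : (C ^ 2) ^ 2 = 0 := by nlinarith [sq_nonneg S, sq_nonneg (C ^ 2)]
      simpa using h2
    rw [hC]; simp
  · obtain ⟨v, hv⟩ : ∃ v : ℕ, max (padicNorm p (A : ℚ)) (padicNorm p (B : ℚ))
        = (p : ℚ) ^ (-(v : ℤ)) := by
      by_cases hA : A = 0
      · have hB : B ≠ 0 := fun hB => h0 ⟨hA, hB⟩
        obtain ⟨v, hv⟩ := int_norm (p := p) hB
        refine ⟨v, ?_⟩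
        rw [hA, Int.cast_zero, padicNorm.zero, max_eq_right (padicNorm.nonneg _), hv]
      · by_cases hB : B = 0
        · obtain ⟨v, hv⟩ := int_norm (p := p) hA
          refine ⟨v, ?_⟩
          rw [hB, Int.cast_zero, padicNorm.zero, max_eq_left (padicNorm.nonneg _), hv]
        · rcases max_choice (padicNorm p (A : ℚ)) (padicNorm p (B : ℚ)) with h1 | h1
          · obtain ⟨v, hv⟩ := int_norm (p := p) hA
            exact ⟨v, by rw [h1, hv]⟩
          · obtain ⟨v, hv⟩ := int_norm (p := p) hB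
            exact ⟨v, by rw [h1, hv]⟩
    rw [hv]
    have hA : (p : ℤ) ^ v ∣ A := by
      have := (padicNorm.dvd_iff_norm_le (p := p) (n := v) (z := A)).2 (hv ▸ le_max_left _ _)
      exact_mod_cast this
    have hB : (p : ℤ) ^ v ∣ B := by
      have := (padicNorm.dvd_iff_norm_le (p := p) (n := v) (z := B)).2 (hv ▸ le_max_right _ _)
      exact_mod_cast this
    have hC := heron_dvd hp4 v h hA hB
    exact (padicNorm.dvd_iff_norm_le (p := p) (n := v) (z := C)).1 (by exact_mod_cast hC)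

/-- the ultrametric inequality for the sides of a rational triangle with rational area -/
theorem heron_norm {p : ℕ} [hp : Fact p.Prime] (hp4 : p = 2 ∨ p % 4 = 3) {a b c s : ℚ}
    (h : s ^ 2 = 4 * a ^ 2 * b ^ 2 - (a ^ 2 + b ^ 2 - c ^ 2) ^ 2) :
    padicNorm p c ≤ max (padicNorm p a) (padicNorm p b) := by
  set D : ℚ := ((a.den * b.den * c.den : ℕ) : ℚ) with hD
  have hD0 : D ≠ 0 := by
    rw [hD]; exact_mod_cast mul_ne_zero (mul_ne_zero a.den_nz b.den_nz) c.den_nz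
  have ha : ((a.num * b.den * c.den : ℤ) : ℚ) = D * a := by
    rw [hD]; push_cast; rw [← Rat.mul_den_eq_num a]; ring
  have hb : ((b.num * a.den * c.den : ℤ) : ℚ) = D * b := by
    rw [hD]; push_cast; rw [← Rat.mul_den_eq_num b]; ring
  have hc : ((c.num * a.den * b.den : ℤ) : ℚ) = D * c := by
    rw [hD]; push_cast; rw [← Rat.mul_den_eq_num c]; ring
  set A : ℤ := a.num * b.den * c.den
  set B : ℤ := b.num * a.den * c.den
  set C : ℤ := c.num * a.den * b.den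
  have hs : (D ^ 2 * s) ^ 2 = ((4 * A ^ 2 * B ^ 2 - (A ^ 2 + B ^ 2 - C ^ 2) ^ 2 : ℤ) : ℚ) := by
    push_cast
    rw [ha, hb, hc]
    linear_combination D ^ 4 * h
  obtain ⟨S, hS⟩ := exists_int_of_sq hs
  have hint : S ^ 2 = 4 * A ^ 2 * B ^ 2 - (A ^ 2 + B ^ 2 - C ^ 2) ^ 2 := by
    rw [hS] at hs; exact_mod_cast hs
  have := max_int_norm hp4 hint
  rw [ha, hb, hc, padicNorm.mul, padicNorm.mul, padicNorm.mul,
    ← mul_max_of_nonneg _ _ (padicNorm.nonneg _)] at this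
  have hDpos : 0 < padicNorm p D := lt_of_le_of_ne (padicNorm.nonneg _)
    (fun h0 => hD0 (padicNorm.zero_of_padicNorm_eq_zero h0.symm))
  exact le_of_mul_le_mul_left this hDpos

lemma exists_unit_part {p : ℕ} [hp : Fact p.Prime] {z : ℤ} {v : ℕ}
    (h : padicNorm p (z : ℚ) = (p : ℚ) ^ (-(v : ℤ))) :
    ∃ w : ℤ, z = (p : ℤ) ^ v * w ∧ ¬ (p : ℤ) ∣ w := by
  have h1 : (p : ℤ) ^ v ∣ z := by
    have := (padicNorm.dvd_iff_norm_le (p := p) (n := v) (z := z)).2 h.le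
    exact_mod_cast this
  obtain ⟨w, rfl⟩ := h1
  refine ⟨w, rfl, fun hw => ?_⟩
  have h2 : ((p ^ (v + 1) : ℕ) : ℤ) ∣ (p : ℤ) ^ v * w := by
    push_cast
    rw [pow_succ]
    exact mul_dvd_mul_left _ hw
  have h3 := (padicNorm.dvd_iff_norm_le (p := p)).1 h2
  rw [h] at h3
  have hp1 : (1 : ℚ) < p := by exact_mod_cast hp.out.one_lt
  have := (zpow_le_zpow_iff_right₀ hp1).1 h3
  push_cast at this
  omega

/-- the three sides of a rational triangle with rational area do not have the same `2`-adic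
absolute value -/
theorem heron_two {a b c s : ℚ} (ha0 : a ≠ 0)
    (h : s ^ 2 = 4 * a ^ 2 * b ^ 2 - (a ^ 2 + b ^ 2 - c ^ 2) ^ 2)
    (hab : padicNorm 2 a = padicNorm 2 b) (hbc : padicNorm 2 b = padicNorm 2 c) : False := by
  set D : ℚ := ((a.den * b.den * c.den : ℕ) : ℚ) with hD
  have hD0 : D ≠ 0 := by
    rw [hD]; exact_mod_cast mul_ne_zero (mul_ne_zero a.den_nz b.den_nz) c.den_nz
  have ha : ((a.num * b.den * c.den : ℤ) : ℚ) = D * a := by
    rw [hD]; push_cast; rw [← Rat.mul_den_eq_num a]; ring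
  have hb : ((b.num * a.den * c.den : ℤ) : ℚ) = D * b := by
    rw [hD]; push_cast; rw [← Rat.mul_den_eq_num b]; ring
  have hc : ((c.num * a.den * b.den : ℤ) : ℚ) = D * c := by
    rw [hD]; push_cast; rw [← Rat.mul_den_eq_num c]; ring
  generalize hA : a.num * b.den * c.den = A at *
  generalize hB : b.num * a.den * c.den = B at *
  generalize hC : c.num * a.den * b.den = C at *
  have hA0 : A ≠ 0 := by
    rintro rfl
    rw [Int.cast_zero] at ha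
    rcases mul_eq_zero.1 ha.symm with h1 | h1
    · exact hD0 h1
    · exact ha0 h1
  obtain ⟨v, hv⟩ := int_norm (p := 2) hA0
  have hvB : padicNorm 2 (B : ℚ) = ((2 : ℕ) : ℚ) ^ (-(v : ℤ)) := by
    rw [← hv, ha, hb, padicNorm.mul, padicNorm.mul, hab]
  have hvC : padicNorm 2 (C : ℚ) = ((2 : ℕ) : ℚ) ^ (-(v : ℤ)) := by
    rw [← hvB, hb, hc, padicNorm.mul, padicNorm.mul, hbc]
  obtain ⟨A', hA', hA2⟩ := exists_unit_part hv
  obtain ⟨B', hB', hB2⟩ := exists_unit_part hvB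
  obtain ⟨C', hC', hC2⟩ := exists_unit_part hvC
  have h2v : ((2 : ℚ) ^ v) ≠ 0 := by positivity
  have hA'' : D * a = 2 ^ v * (A' : ℚ) := by rw [← ha, hA']; push_cast; ring
  have hB'' : D * b = 2 ^ v * (B' : ℚ) := by rw [← hb, hB']; push_cast; ring
  have hC'' : D * c = 2 ^ v * (C' : ℚ) := by rw [← hc, hC']; push_cast; ring
  have hs : (D ^ 2 * s / (2 ^ v) ^ 2) ^ 2
      = ((4 * A' ^ 2 * B' ^ 2 - (A' ^ 2 + B' ^ 2 - C' ^ 2) ^ 2 : ℤ) : ℚ) := by
    have e1 : (A' : ℚ) = D * a / 2 ^ v := by rw [hA'']; field_simp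
    have e2 : (B' : ℚ) = D * b / 2 ^ v := by rw [hB'']; field_simp
    have e3 : (C' : ℚ) = D * c / 2 ^ v := by rw [hC'']; field_simp
    push_cast
    rw [e1, e2, e3]
    field_simp
    linear_combination h
  obtain ⟨S, hS⟩ := exists_int_of_sq hs
  refine heron_odd (S := S) ?_ hA2 hB2 hC2
  rw [hS] at hs; exact_mod_cast hs

/-- rational numbers of the same `p`-adic absolute value are a common multiple of integers prime to
`p` -/
lemma exists_common_scale {ι : Type} [Fintype ι] [Nonempty ι] {p : ℕ} [hp : Fact p.Prime]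
    (l : ι → ℚ) (r : ℚ) (hr : r ≠ 0) (h : ∀ i, padicNorm p (l i) = r) :
    ∃ μ : ℚ, μ ≠ 0 ∧ ∃ L : ι → ℤ, ∀ i, l i = μ * L i ∧ ¬ (p : ℤ) ∣ L i := by
  set D : ℚ := ((∏ i, (l i).den : ℕ) : ℚ) with hD
  have hD0 : D ≠ 0 := by
    rw [hD]; exact_mod_cast Finset.prod_ne_zero_iff.2 fun i _ => (l i).den_nz
  have hint : ∀ i, ∃ z : ℤ, D * l i = z := by
    intro i
    obtain ⟨k, hk⟩ : (l i).den ∣ ∏ i, (l i).den := Finset.dvd_prod_of_mem _ (Finset.mem_univ i)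
    refine ⟨k * (l i).num, ?_⟩
    rw [hD, hk]
    push_cast
    rw [← Rat.mul_den_eq_num (l i)]
    ring
  choose z hz using hint
  have hz0 : ∀ i, z i ≠ 0 := by
    intro i h0
    have h1 := hz i
    rw [h0, Int.cast_zero] at h1
    rcases mul_eq_zero.1 h1 with h2 | h2
    · exact hD0 h2
    · have := h i
      rw [h2, padicNorm.zero] at this
      exact hr this.symm
  obtain ⟨i0⟩ := (inferInstance : Nonempty ι)
  obtain ⟨v, hv⟩ := int_norm (p := p) (hz0 i0)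
  have hv' : ∀ i, padicNorm p (z i : ℚ) = (p : ℚ) ^ (-(v : ℤ)) := by
    intro i
    rw [← hv, ← hz i, ← hz i0, padicNorm.mul, padicNorm.mul, h i, h i0]
  have hw : ∀ i, ∃ w : ℤ, z i = (p : ℤ) ^ v * w ∧ ¬ (p : ℤ) ∣ w := fun i =>
    exists_unit_part (hv' i)
  choose w hw1 hw2 using hw
  have hpv : ((p : ℚ) ^ v) ≠ 0 := pow_ne_zero _ (by exact_mod_cast hp.out.ne_zero)
  refine ⟨(p : ℚ) ^ v / D, div_ne_zero hpv hD0, w, fun i => ⟨?_, hw2 i⟩⟩
  have h1 := hz i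
  rw [hw1 i] at h1
  push_cast at h1
  field_simp
  linear_combination h1

/-- eight times the Gram determinant of a tetrahedron with squared edge lengths `A, B, C` at one
vertex and `X, Y, Z` on the opposite face (`X` opposite `C`, and so on) -/
def gram8 {R : Type} [CommRing R] (A B C X Y Z : R) : R :=
  2 * A * (4 * B * C - (B + C - Z) ^ 2)
    - (A + B - X) * (2 * C * (A + B - X) - (B + C - Z) * (A + C - Y))
    + (A + C - Y) * ((A + B - X) * (B + C - Z) - 2 * B * (A + C - Y))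

/-- the six edges of a rational tetrahedron with rational volume do not all have the same `3`-adic
absolute value -/
theorem heron_three {l : Fin 6 → ℚ} {r T : ℚ} (hr : r ≠ 0) (h : ∀ i, padicNorm 3 (l i) = r)
    (hT : 2 * T ^ 2 = gram8 (l 0 ^ 2) (l 1 ^ 2) (l 2 ^ 2) (l 3 ^ 2) (l 4 ^ 2) (l 5 ^ 2)) :
    False := by
  obtain ⟨μ, hμ, L, hL⟩ := exists_common_scale (p := 3) l r hr h
  set W : ℤ := gram8 (L 0 ^ 2) (L 1 ^ 2) (L 2 ^ 2) (L 3 ^ 2) (L 4 ^ 2) (L 5 ^ 2) with hW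
  have h1 : 2 * (T / μ ^ 3) ^ 2 = (W : ℚ) := by
    have e : gram8 (l 0 ^ 2) (l 1 ^ 2) (l 2 ^ 2) (l 3 ^ 2) (l 4 ^ 2) (l 5 ^ 2)
        = μ ^ 6 * (W : ℚ) := by
      rw [hW, (hL 0).1, (hL 1).1, (hL 2).1, (hL 3).1, (hL 4).1, (hL 5).1]
      unfold gram8
      push_cast
      ring
    rw [e] at hT
    field_simp
    linear_combination hT
  have h2 : (2 * (T / μ ^ 3)) ^ 2 = ((2 * W : ℤ) : ℚ) := by
    push_cast
    linear_combination 2 * h1
  obtain ⟨U, hU⟩ := exists_int_of_sq h2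
  have h3 : U ^ 2 = 2 * W := by rw [hU] at h2; exact_mod_cast h2
  have h4 : (2 : ℤ) ∣ U := Int.prime_two.dvd_of_dvd_pow (Dvd.intro _ h3.symm)
  obtain ⟨k, rfl⟩ := h4
  have h5 : 2 * k ^ 2 = W := by linarith
  have h6 := congrArg (fun z : ℤ => (z : ZMod 3)) h5
  have hsq : ∀ i, ((L i : ℤ) : ZMod 3) ^ 2 = 1 := by
    intro i
    have h7 : ((L i : ℤ) : ZMod 3) ≠ 0 := by
      intro h0
      exact (hL i).2 ((ZMod.intCast_zmod_eq_zero_iff_dvd (L i) 3).1 h0)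
    revert h7
    generalize ((L i : ℤ) : ZMod 3) = t
    revert t
    decide
  have h8 : ((W : ℤ) : ZMod 3) = 1 := by
    rw [hW]
    unfold gram8
    push_cast
    rw [hsq 0, hsq 1, hsq 2, hsq 3, hsq 4, hsq 5]
    decide
  rw [h8] at h6
  push_cast at h6
  revert h6
  generalize ((k : ℤ) : ZMod 3) = t
  revert t
  decide

end Pool.Agent.H92.Simp
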