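import Pool.Agent.H92.Simp.Sym

/-!
# Counting: distinct edge lengths, transitive symmetry groups
-/

set_option autoImplicit false

namespace Pool.Agent.H92.Simp

/-- a set with an ultrametric without equilateral triangles has at most `2 ^ m` points if at most
`m` nonzero distances occur -/
theorem card_le_of_ultra {α : Type} [DecidableEq α] (ν : α → α → ℚ)
    (hs : ∀ i j, ν i j = ν j i) (hu : ∀ i j k, ν i k ≤ max (ν i j) (ν j k))
    (h2 : ∀ i j k, i ≠ j → j ≠ k → i ≠ k → ν i j = ν j k → ν j k = ν i k → False) (m : ℕ) :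
    ∀ (s : Finset α) (V : Finset ℚ), V.card ≤ m →
      (∀ i ∈ s, ∀ j ∈ s, i ≠ j → ν i j ∈ V) → s.card ≤ 2 ^ m := by
  induction m with
  | zero =>
    intro s V hV h
    rw [pow_zero, Finset.card_le_one]
    intro a ha b hb
    by_contra hab
    have h1 := h a ha b hb hab
    rw [Nat.le_zero, Finset.card_eq_zero] at hV
    rw [hV] at h1
    exact absurd h1 (Finset.notMem_empty _)
  | succ m ih =>
    intro s V hV h
    by_cases hs1 : s.card ≤ 1
    · exact hs1.trans Nat.one_le_two_pow
    push Not at hs1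
    obtain ⟨a, ha, b, hb, hab⟩ := Finset.one_lt_card.1 hs1
    obtain ⟨⟨x, y⟩, hxy, hmax⟩ := Finset.exists_max_image s.offDiag (fun e => ν e.1 e.2)
      ⟨(a, b), Finset.mem_offDiag.2 ⟨ha, hb, hab⟩⟩
    obtain ⟨hx, hy, hne⟩ := Finset.mem_offDiag.1 hxy
    simp only at hx hy hne hmax
    set r := ν x y with hr
    have hmax' : ∀ i ∈ s, ∀ j ∈ s, i ≠ j → ν i j ≤ r := fun i hi j hj hij =>
      hmax (i, j) (Finset.mem_offDiag.2 ⟨hi, hj, hij⟩)
    have hrV : r ∈ V := h x hx y hy hne
    have hVe : (V.erase r).card ≤ m := by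
      rw [Finset.card_erase_of_mem hrV]; omega
    have key : ∀ t ⊆ s, (∀ i ∈ t, ∀ j ∈ t, i ≠ j → ν i j ≠ r) → t.card ≤ 2 ^ m := by
      intro t hts ht
      refine ih t (V.erase r) hVe fun i hi j hj hij => ?_
      exact Finset.mem_erase.2 ⟨ht i hi j hj hij, h i (hts hi) j (hts hj) hij⟩
    have h1 : (s.filter (fun z => z = x ∨ ν x z < r)).card ≤ 2 ^ m := by
      apply key _ (Finset.filter_subset _ _)
      intro i hi j hj hij
      rw [Finset.mem_filter] at hi hj
      apply ne_of_lt
      rcases hi.2 with h1 | h1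
      · rcases hj.2 with h3 | h3
        · exact absurd (h1.trans h3.symm) hij
        · rw [h1]; exact h3
      · rcases hj.2 with h3 | h3
        · rw [h3, hs]; exact h1
        · calc ν i j ≤ max (ν i x) (ν x j) := hu i x j
            _ < r := by rw [hs i x]; exact max_lt h1 h3
    have h3 : (s.filter (fun z => ¬ (z = x ∨ ν x z < r))).card ≤ 2 ^ m := by
      apply key _ (Finset.filter_subset _ _)
      intro i hi j hj hij hr'
      rw [Finset.mem_filter] at hi hj
      have hi2 := hi.2
      have hj2 := hj.2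
      push Not at hi2 hj2
      have hxi : ν x i = r := le_antisymm (hmax' x hx i hi.1 hi2.1.symm) hi2.2
      have hxj : ν x j = r := le_antisymm (hmax' x hx j hj.1 hj2.1.symm) hj2.2
      exact h2 x i j hi2.1.symm hij hj2.1.symm (by rw [hxi, hr']) (by rw [hxj, hr'])
    have h4 := Finset.card_filter_add_card_filter_not (s := s) (fun z => z = x ∨ ν x z < r)
    rw [← h4, pow_succ]
    omega

variable {n : ℕ} {p : Fin (n + 1) → EuclideanSpace ℝ (Fin n)}

/-- a rational simplex with at most `m` distinct edge lengths has at most `2 ^ m` vertices -/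
theorem card_lengths (hp : IsRationalSimplex p) :
    n + 1 ≤ 2 ^ (Finset.univ.offDiag.image
      (fun e : Fin (n + 1) × Fin (n + 1) => dist (p e.1) (p e.2))).card := by
  obtain ⟨l, hl⟩ := exists_len hp
  have h1 := card_le_of_ultra (fun i j => padicNorm 2 (l i j))
    (fun i j => congrArg (padicNorm 2) (len_symm hl i j))
    (fun i j k => len_norm hp hl Nat.prime_two (Or.inl rfl) i j k)
    (fun i j k hij hjk hik => len_two hp hl hij hjk hik)
    (Finset.univ.offDiag.image
      (fun e : Fin (n + 1) × Fin (n + 1) => dist (p e.1) (p e.2))).card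
    Finset.univ (Finset.univ.offDiag.image
      (fun e : Fin (n + 1) × Fin (n + 1) => padicNorm 2 (l e.1 e.2))) ?_ ?_
  · rwa [Finset.card_univ, Fintype.card_fin] at h1
  · have e1 : Finset.univ.offDiag.image (fun e : Fin (n + 1) × Fin (n + 1) =>
        padicNorm 2 (l e.1 e.2)) = (Finset.univ.offDiag.image
          (fun e : Fin (n + 1) × Fin (n + 1) => l e.1 e.2)).image (padicNorm 2) := by
      rw [Finset.image_image]; rfl
    have e2 : Finset.univ.offDiag.image (fun e : Fin (n + 1) × Fin (n + 1) =>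
        dist (p e.1) (p e.2)) = (Finset.univ.offDiag.image
          (fun e : Fin (n + 1) × Fin (n + 1) => l e.1 e.2)).image (fun q : ℚ => (q : ℝ)) := by
      rw [Finset.image_image]
      apply Finset.image_congr
      intro e _
      exact (hl e.1 e.2).symm
    rw [e1, e2, Finset.card_image_of_injective _ Rat.cast_injective]
    exact Finset.card_image_le
  · intro i _ j _ hij
    exact Finset.mem_image.2 ⟨(i, j), Finset.mem_offDiag.2 ⟨Finset.mem_univ _, Finset.mem_univ _,
      hij⟩, rfl⟩

/-- the group of symmetries -/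
def symmGroup (p : Fin (n + 1) → EuclideanSpace ℝ (Fin n)) : Subgroup (Equiv.Perm (Fin (n + 1))) where
  carrier := {σ | IsSymm p σ}
  one_mem' := isSymm_one
  mul_mem' := fun hσ hτ => hσ.mul hτ
  inv_mem' := fun hσ => hσ.inv

/-- if the symmetries act transitively on the vertices, their number is a power of two -/
theorem transitive_card (hp : IsRationalSimplex p)
    (h : ∀ i j, ∃ σ : Equiv.Perm (Fin (n + 1)), IsSymm p σ ∧ σ i = j) :
    ∃ k : ℕ, n + 1 = 2 ^ k := by
  have : Fact (Nat.Prime 2) := ⟨Nat.prime_two⟩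
  have hG : IsPGroup 2 (symmGroup p) := by
    intro g
    refine ⟨1, ?_⟩
    rw [pow_one, pow_two]
    exact Subtype.ext (symm_sq hp g.2)
  obtain ⟨k, hk⟩ := hG.card_orbit (0 : Fin (n + 1))
  refine ⟨k, ?_⟩
  have horb : MulAction.orbit (symmGroup p) (0 : Fin (n + 1)) = Set.univ := by
    rw [Set.eq_univ_iff_forall]
    intro j
    obtain ⟨σ, hσ, hσj⟩ := h 0 j
    exact ⟨⟨σ, hσ⟩, hσj⟩
  rw [horb] at hk
  simpa using hk

end Pool.Agent.H92.Simp
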