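import Mathlib

/-!
# The equation `x ^ 4 = y ^ 4 + z ^ 2` (Fermat)
-/

set_option autoImplicit false

namespace Pool.Agent.H92.Simp

lemma quart_caseB {x r s : ℤ} (hx : 0 < x) (hr : r ≠ 0) (hs : s % 2 = 1) (hco : Int.gcd s r = 1)
    (h : x ^ 2 = s ^ 4 + 4 * r ^ 4) :
    ∃ f g : ℤ, f ^ 4 = g ^ 4 + s ^ 2 ∧ g ≠ 0 ∧ |f| < x := by
  have hpt : PythagoreanTriple (s ^ 2) (2 * r ^ 2) x := by
    unfold PythagoreanTriple
    nlinarith [h]
  have hs2 : s ^ 2 % 2 = 1 := by
    rcases Int.even_or_odd s with h1 | h1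
    · obtain ⟨k, hk⟩ := h1; omega
    · obtain ⟨k, hk⟩ := h1; subst hk; ring_nf; omega
  have hcop : Int.gcd (s ^ 2) (2 * r ^ 2) = 1 := by
    have h1 : IsCoprime s r := Int.isCoprime_iff_gcd_eq_one.2 hco
    have h2 : IsCoprime s 2 := by
      rw [Int.isCoprime_iff_gcd_eq_one]
      have : ¬ (2 : ℤ) ∣ s := by omega
      have h3 := (Int.isCoprime_iff_gcd_eq_one.1 ((Int.prime_two.coprime_iff_not_dvd.2 this)))
      rwa [Int.gcd_comm]
    exact Int.isCoprime_iff_gcd_eq_one.1 ((h2.mul_right (h1.pow_right)).pow_left)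
  obtain ⟨u, v, e1, e2, e3, e4, e5, e6⟩ := hpt.coprime_classification' hcop hs2 hx
  have e2' : r ^ 2 = u * v := by linarith
  have hrpos : 0 < r ^ 2 := by positivity
  have hu : 0 < u := by
    rcases lt_or_eq_of_le e6 with h1 | h1
    · exact h1
    · rw [← h1, zero_mul] at e2'; exact absurd e2' hrpos.ne'
  have hv : 0 < v := by
    by_contra hcon
    push Not at hcon
    have := mul_nonpos_of_nonneg_of_nonpos hu.le hcon
    linarith
  obtain ⟨f, hf⟩ : ∃ f : ℤ, u = f ^ 2 := by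
    obtain ⟨f, hf⟩ := Int.sq_of_gcd_eq_one e4 e2'.symm
    rcases hf with hf | hf
    · exact ⟨f, hf⟩
    · exfalso; nlinarith [sq_nonneg f]
  obtain ⟨g, hg⟩ : ∃ g : ℤ, v = g ^ 2 := by
    have e4' : Int.gcd v u = 1 := by rwa [Int.gcd_comm]
    obtain ⟨g, hg⟩ := Int.sq_of_gcd_eq_one e4' (show v * u = r ^ 2 by rw [e2']; ring)
    rcases hg with hg | hg
    · exact ⟨g, hg⟩
    · exfalso; nlinarith [sq_nonneg g]
  refine ⟨f, g, ?_, ?_, ?_⟩
  · rw [e1, hf, hg]; ring
  · rintro rfl
    rw [hg] at hv; simp at hv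
  · have h1 : |f| ≤ f ^ 2 := by
      rcases eq_or_ne f 0 with h0 | h0
      · rw [h0]; simp
      · have : 1 ≤ |f| := Int.one_le_abs h0
        calc |f| = |f| * 1 := (mul_one _).symm
          _ ≤ |f| * |f| := by gcongr
          _ = f ^ 2 := by rw [← sq, sq_abs]
    calc |f| ≤ u := by rw [hf]; exact h1
      _ < x := by rw [e3]; nlinarith

theorem quart_aux (N : ℕ) : ∀ x y z : ℤ, 0 < x → x ≤ N → y ≠ 0 → z ≠ 0 →
    x ^ 4 ≠ y ^ 4 + z ^ 2 := by
  induction N using Nat.strong_induction_on with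
  | _ N ih =>
  intro x y z hx hxN hy hz h
  -- the inductive hypothesis for all smaller `|x|`
  have ih' : ∀ x' y' z' : ℤ, |x'| < x → y' ≠ 0 → z' ≠ 0 → x' ^ 4 ≠ y' ^ 4 + z' ^ 2 := by
    intro x' y' z' hx' hy' hz' h'
    have hx0 : x' ≠ 0 := by
      rintro rfl
      have : 0 < y' ^ 4 + z' ^ 2 := by positivity
      rw [← h'] at this; simp at this
    have h1 : (x'.natAbs : ℤ) = |x'| := Int.natCast_natAbs x'
    have hlt : x'.natAbs < N := by
      have : (x'.natAbs : ℤ) < N := by rw [h1]; linarith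
      exact_mod_cast this
    refine ih x'.natAbs hlt |x'| y' z' (abs_pos.2 hx0) (by rw [h1]) hy' hz' ?_
    rw [← h']
    have : |x'| ^ 4 = (|x'| ^ 2) ^ 2 := by ring
    rw [this, sq_abs]; ring
  -- coprimality
  have hco : Int.gcd x y = 1 := by
    by_contra hne
    obtain ⟨p, hp, hpd⟩ := Nat.exists_prime_and_dvd hne
    have hpx : (p : ℤ) ∣ x := (Int.natCast_dvd_natCast.2 hpd).trans (Int.gcd_dvd_left x y)
    have hpy : (p : ℤ) ∣ y := (Int.natCast_dvd_natCast.2 hpd).trans (Int.gcd_dvd_right x y)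
    obtain ⟨a, rfl⟩ := hpx
    obtain ⟨b, rfl⟩ := hpy
    have hp0 : (0 : ℤ) < p := by exact_mod_cast hp.pos
    have hz2 : ((p : ℤ) ^ 2) ^ 2 ∣ z ^ 2 := ⟨a ^ 4 - b ^ 4, by linear_combination -h⟩
    have hz1 : (p : ℤ) ^ 2 ∣ z := (Int.pow_dvd_pow_iff two_ne_zero).1 hz2
    obtain ⟨c, rfl⟩ := hz1
    have ha : 0 < a := by
      rcases (mul_pos_iff_of_pos_left hp0).1 hx with h1
      exact h1
    refine ih' a b c ?_ (right_ne_zero_of_mul hy) (right_ne_zero_of_mul hz) ?_
    · rw [abs_of_pos ha]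
      have h2 : (2 : ℤ) ≤ p := by exact_mod_cast hp.two_le
      nlinarith
    · have hp4 : ((p : ℤ)) ^ 4 ≠ 0 := by positivity
      apply mul_left_cancel₀ hp4
      linear_combination h
  have hcop : IsCoprime x y := Int.isCoprime_iff_gcd_eq_one.2 hco
  have hcopyz : IsCoprime (y ^ 2) z := by
    have h1 : IsCoprime (y ^ 2) (x ^ 4) := (hcop.symm.pow_left).pow_right
    have h2 : IsCoprime (y ^ 2) (z ^ 2) := by
      have : z ^ 2 = x ^ 4 + (y ^ 2) * (-(y ^ 2)) := by linear_combination -h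
      rw [this]
      exact IsCoprime.add_mul_left_right h1 _
    exact (IsCoprime.pow_right_iff (by norm_num)).1 h2
  rcases Int.even_or_odd y with hye | hyo
  · -- `y` even
    have hzodd : z % 2 = 1 := by
      have hxodd : ¬ (2 : ℤ) ∣ x := by
        intro h2
        have := hcop.isUnit_of_dvd' h2 hye.two_dvd
        exact absurd this (by decide)
      have : ¬ (2 : ℤ) ∣ z := by
        intro h2
        have h3 : (2 : ℤ) ∣ x ^ 4 := by
          rw [h]
          exact dvd_add (dvd_pow hye.two_dvd (by norm_num)) (dvd_pow h2 (by norm_num))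
        exact hxodd (Int.prime_two.dvd_of_dvd_pow h3)
      omega
    have hpt : PythagoreanTriple z (y ^ 2) (x ^ 2) := by
      unfold PythagoreanTriple
      linear_combination -h
    have hg : Int.gcd z (y ^ 2) = 1 := Int.isCoprime_iff_gcd_eq_one.1 hcopyz.symm
    obtain ⟨m, n, e1, e2, e3, e4, e5, e6⟩ :=
      hpt.coprime_classification' hg hzodd (by positivity)
    have hy2 : 0 < y ^ 2 := by positivity
    have hm : 0 < m := by
      rcases lt_or_eq_of_le e6 with h1 | h1
      · exact h1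
      · rw [← h1] at e2; simp at e2; exact absurd e2 hy
    have hn : 0 < n := by
      by_contra hcon
      push Not at hcon
      have := mul_nonpos_of_nonneg_of_nonpos (mul_pos two_pos hm).le hcon
      linarith
    obtain ⟨w, hw⟩ := hye.two_dvd
    have hw2 : 2 * w ^ 2 = m * n := by
      have : y ^ 2 = 4 * w ^ 2 := by rw [hw]; ring
      linarith
    have hcmn : IsCoprime m n := Int.isCoprime_iff_gcd_eq_one.2 e4
    -- `m = 2 r ^ 2, n = s ^ 2` or the other way round
    have key : ∀ a b : ℤ, 0 < a → 0 < b → IsCoprime a b → a % 2 = 0 → b % 2 = 1 →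
        2 * w ^ 2 = a * b → x ^ 2 = a ^ 2 + b ^ 2 → False := by
      intro a b ha hb hab ha2 hb2 hwab hxab
      obtain ⟨a', rfl⟩ : (2 : ℤ) ∣ a := Int.dvd_of_emod_eq_zero ha2
      have hwab' : a' * b = w ^ 2 := by linarith
      have hcab : IsCoprime a' b := hab.of_mul_left_right
      have ha' : 0 < a' := by linarith
      obtain ⟨r, hr⟩ : ∃ r : ℤ, a' = r ^ 2 := by
        obtain ⟨r, hr⟩ := Int.sq_of_gcd_eq_one (Int.isCoprime_iff_gcd_eq_one.1 hcab) hwab'
        rcases hr with hr | hr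
        · exact ⟨r, hr⟩
        · exfalso; nlinarith [sq_nonneg r]
      obtain ⟨s, hs⟩ : ∃ s : ℤ, b = s ^ 2 := by
        obtain ⟨s, hs⟩ := Int.sq_of_gcd_eq_one (Int.isCoprime_iff_gcd_eq_one.1 hcab.symm)
          (show b * a' = w ^ 2 by rw [← hwab']; ring)
        rcases hs with hs | hs
        · exact ⟨s, hs⟩
        · exfalso; nlinarith [sq_nonneg s]
      have hr0 : r ≠ 0 := by rintro rfl; rw [hr] at ha'; simp at ha'
      have hs0 : s ≠ 0 := by rintro rfl; rw [hs] at hb; simp at hb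
      have hsodd : s % 2 = 1 := by
        by_contra hcon
        have h0 : (2 : ℤ) ∣ s := by omega
        have : (2 : ℤ) ∣ b := by rw [hs]; exact dvd_pow h0 two_ne_zero
        omega
      have hsr : Int.gcd s r = 1 := by
        apply Int.isCoprime_iff_gcd_eq_one.1
        have h1 := hcab.symm
        rw [hr, hs] at h1
        exact (IsCoprime.pow_iff two_pos two_pos).1 h1
      obtain ⟨f, g, h1, h2, h3⟩ := quart_caseB hx hr0 hsodd hsr
        (by rw [hxab, hr, hs]; ring)
      exact ih' f g s h3 h2 hs0 h1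
    rcases e5 with ⟨h1, h2⟩ | ⟨h1, h2⟩
    · exact key m n hm hn hcmn h1 h2 hw2 e3
    · exact key n m hn hm hcmn.symm h2 h1 (by rw [hw2]; ring) (by rw [e3]; ring)
  · -- `y` odd
    have hpt : PythagoreanTriple (y ^ 2) z (x ^ 2) := by
      unfold PythagoreanTriple
      linear_combination -h
    have hy2 : y ^ 2 % 2 = 1 := by
      obtain ⟨k, hk⟩ := hyo
      subst hk; ring_nf; omega
    obtain ⟨m, n, e1, e2, e3, e4, e5, e6⟩ :=
      hpt.coprime_classification' (Int.isCoprime_iff_gcd_eq_one.1 hcopyz) hy2 (by positivity)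
    have hn : n ≠ 0 := by rintro rfl; rw [mul_zero] at e2; exact hz e2
    refine ih' m n (x * y) ?_ hn (mul_ne_zero hx.ne' hy) ?_
    · have : m ^ 2 < x ^ 2 := by
        rw [e3]
        have : 0 < n ^ 2 := by positivity
        linarith
      have := sq_lt_sq.1 this
      rwa [abs_of_pos hx] at this
    · calc m ^ 4 = n ^ 4 + (m ^ 2 + n ^ 2) * (m ^ 2 - n ^ 2) := by ring
        _ = n ^ 4 + (x * y) ^ 2 := by rw [← e1, ← e3]; ring

/-- Fermat: a difference of two fourth powers of nonzero integers is not a nonzero square. -/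
theorem quart (x y z : ℤ) (hy : y ≠ 0) (hz : z ≠ 0) : x ^ 4 ≠ y ^ 4 + z ^ 2 := by
  intro h
  have hx : x ≠ 0 := by
    rintro rfl
    have : 0 < y ^ 4 + z ^ 2 := by positivity
    rw [← h] at this; simp at this
  refine quart_aux x.natAbs |x| y z (abs_pos.2 hx) (by rw [Int.natCast_natAbs]) hy hz ?_
  rw [← h]
  have : |x| ^ 4 = (|x| ^ 2) ^ 2 := by ring
  rw [this, sq_abs]; ring

/-- the same over the rational numbers -/
theorem quart_rat (x y z : ℚ) (hy : y ≠ 0) (hz : z ≠ 0) : x ^ 4 ≠ y ^ 4 + z ^ 2 := by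
  intro h
  set D : ℚ := ((x.den * y.den * z.den : ℕ) : ℚ) with hD
  have hD0 : D ≠ 0 := by
    rw [hD]; exact_mod_cast mul_ne_zero (mul_ne_zero x.den_nz y.den_nz) z.den_nz
  have hx' : ((x.num * y.den * z.den : ℤ) : ℚ) = D * x := by
    rw [hD]; push_cast
    rw [← Rat.mul_den_eq_num x]
    ring
  have hy' : ((y.num * x.den * z.den : ℤ) : ℚ) = D * y := by
    rw [hD]; push_cast
    rw [← Rat.mul_den_eq_num y]
    ring
  have hz' : ((z.num * x.den * y.den * (x.den * y.den * z.den) : ℤ) : ℚ) = D ^ 2 * z := by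
    rw [hD]; push_cast
    rw [← Rat.mul_den_eq_num z]
    ring
  refine quart (x.num * y.den * z.den) (y.num * x.den * z.den)
    (z.num * x.den * y.den * (x.den * y.den * z.den)) ?_ ?_ ?_
  · intro h0
    rw [h0] at hy'
    simp at hy'
    rcases hy' with h1 | h1
    · exact hD0 h1
    · exact hy h1
  · intro h0
    rw [h0] at hz'
    simp at hz'
    rcases hz' with h1 | h1
    · exact hD0 h1
    · exact hz h1
  · have : ((x.num * y.den * z.den : ℤ) : ℚ) ^ 4 = ((y.num * x.den * z.den : ℤ) : ℚ) ^ 4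
        + ((z.num * x.den * y.den * (x.den * y.den * z.den) : ℤ) : ℚ) ^ 2 := by
      rw [hx', hy', hz']
      linear_combination D ^ 4 * h
    exact_mod_cast this

end Pool.Agent.H92.Simp
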