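import Pool.Agent.H92.Simp.Arith

/-!
# Symmetries and edge lengths of rational simplices
-/

set_option autoImplicit false

namespace Pool.Agent.H92.Simp

/-- The points `p 0, ..., p n` are the vertices of a (nondegenerate) rational `n`-simplex: they are
affinely independent, and every face has a rational content. The content of the `k`-face with the
vertices `p (f 0), ..., p (f k)` is the square root of its Gram determinant divided by `k!`. -/
def IsRationalSimplex {n : ℕ} (p : Fin (n + 1) → EuclideanSpace ℝ (Fin n)) : Prop :=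
  AffineIndependent ℝ p ∧
  ∀ k : ℕ, ∀ f : Fin (k + 1) → Fin (n + 1), Function.Injective f →
    ∃ q : ℚ, (q : ℝ) = Real.sqrt (Matrix.det (Matrix.of (fun i j : Fin k =>
      inner ℝ (p (f i.succ) - p (f 0)) (p (f j.succ) - p (f 0))))) / (k.factorial : ℝ)

section
variable {n : ℕ} {p : Fin (n + 1) → EuclideanSpace ℝ (Fin n)}

lemma inner_eq (x y z : EuclideanSpace ℝ (Fin n)) :
    inner ℝ (x - z) (y - z) = (dist x z ^ 2 + dist y z ^ 2 - dist x y ^ 2) / 2 := by
  rw [real_inner_eq_norm_mul_self_add_norm_mul_self_sub_norm_sub_mul_self_div_two,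
    sub_sub_sub_cancel_right, dist_eq_norm, dist_eq_norm, dist_eq_norm]
  ring

lemma gram_pos (hp : AffineIndependent ℝ p) {k : ℕ} (f : Fin (k + 1) → Fin (n + 1))
    (hf : Function.Injective f) :
    0 < Matrix.det (Matrix.of (fun i j : Fin k =>
      inner ℝ (p (f i.succ) - p (f 0)) (p (f j.succ) - p (f 0)))) := by
  have h1 : AffineIndependent ℝ (p ∘ f) := hp.comp_embedding ⟨f, hf⟩
  have h2 := (affineIndependent_iff_linearIndependent_vsub ℝ (p ∘ f) 0).1 h1
  have h3 : LinearIndependent ℝ (fun i : Fin k => p (f i.succ) - p (f 0)) := by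
    have := h2.comp (fun i : Fin k => (⟨i.succ, Fin.succ_ne_zero i⟩ : {x : Fin (k + 1) // x ≠ 0}))
      (fun a b hab => by simpa using hab)
    exact this
  have h4 := Matrix.posDef_gram_of_linearIndependent (𝕜 := ℝ) h3
  exact h4.det_pos

lemma content_sq (hp : IsRationalSimplex p) {k : ℕ} (f : Fin (k + 1) → Fin (n + 1))
    (hf : Function.Injective f) :
    ∃ q : ℚ, q ≠ 0 ∧ ((k.factorial : ℝ) * q) ^ 2 = Matrix.det (Matrix.of (fun i j : Fin k =>
      inner ℝ (p (f i.succ) - p (f 0)) (p (f j.succ) - p (f 0)))) := by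
  obtain ⟨q, hq⟩ := hp.2 k f hf
  have h0 := gram_pos hp.1 f hf
  have hk : ((k.factorial : ℕ) : ℝ) ≠ 0 := by exact_mod_cast k.factorial_ne_zero
  refine ⟨q, ?_, ?_⟩
  · rintro rfl
    rw [Rat.cast_zero, eq_comm, div_eq_zero_iff] at hq
    rcases hq with h1 | h1
    · exact absurd h1 (Real.sqrt_pos.2 h0).ne'
    · exact hk h1
  · rw [hq, mul_div_cancel₀ _ hk, Real.sq_sqrt h0.le]

lemma exists_len (hp : IsRationalSimplex p) :
    ∃ l : Fin (n + 1) → Fin (n + 1) → ℚ, ∀ i j, (l i j : ℝ) = dist (p i) (p j) := by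
  have : ∀ i j, ∃ q : ℚ, (q : ℝ) = dist (p i) (p j) := by
    intro i j
    by_cases hij : i = j
    · exact ⟨0, by rw [hij]; simp⟩
    · obtain ⟨q, hq⟩ := hp.2 1 ![i, j] (by
        intro a b hab
        fin_cases a <;> fin_cases b <;> simp_all)
      refine ⟨q, ?_⟩
      rw [hq, Matrix.det_fin_one, Matrix.of_apply, inner_eq]
      simp [dist_comm (p j) (p i)]
  choose l hl using this
  exact ⟨l, hl⟩

lemma area (hp : IsRationalSimplex p) {l : Fin (n + 1) → Fin (n + 1) → ℚ}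
    (hl : ∀ i j, (l i j : ℝ) = dist (p i) (p j)) {i j k : Fin (n + 1)} (hij : i ≠ j)
    (hjk : j ≠ k) (hik : i ≠ k) :
    ∃ s : ℚ, s ^ 2 = 4 * (l i j) ^ 2 * (l j k) ^ 2
      - ((l i j) ^ 2 + (l j k) ^ 2 - (l i k) ^ 2) ^ 2 := by
  obtain ⟨q, -, hq⟩ := content_sq hp ![j, i, k] (by
    intro a b hab
    fin_cases a <;> fin_cases b <;> simp_all [hij.symm, hjk.symm, hik.symm])
  rw [Matrix.det_fin_two] at hq
  simp only [Matrix.of_apply, inner_eq] at hq
  refine ⟨4 * q, ?_⟩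
  have h : ((4 * q : ℚ) : ℝ) ^ 2 = 4 * (l i j : ℝ) ^ 2 * (l j k : ℝ) ^ 2
      - ((l i j : ℝ) ^ 2 + (l j k : ℝ) ^ 2 - (l i k : ℝ) ^ 2) ^ 2 := by
    rw [hl, hl, hl]
    simp [dist_comm (p k) (p j), dist_comm (p k) (p i), Nat.factorial] at hq
    push_cast
    linear_combination 4 * hq
  exact_mod_cast h

lemma volume (hp : IsRationalSimplex p) {l : Fin (n + 1) → Fin (n + 1) → ℚ}
    (hl : ∀ i j, (l i j : ℝ) = dist (p i) (p j)) {a b c d : Fin (n + 1)}
    (hf : Function.Injective ![a, b, c, d]) :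
    ∃ T : ℚ, T ≠ 0 ∧ 2 * T ^ 2 = gram8 (l a b ^ 2) (l a c ^ 2) (l a d ^ 2) (l b c ^ 2)
      (l b d ^ 2) (l c d ^ 2) := by
  obtain ⟨q, hq0, hq⟩ := content_sq hp ![a, b, c, d] hf
  rw [Matrix.det_fin_three] at hq
  simp only [Matrix.of_apply, inner_eq] at hq
  refine ⟨12 * q, mul_ne_zero (by norm_num) hq0, ?_⟩
  have h : 2 * ((12 * q : ℚ) : ℝ) ^ 2 = gram8 ((l a b : ℝ) ^ 2) ((l a c : ℝ) ^ 2)
      ((l a d : ℝ) ^ 2) ((l b c : ℝ) ^ 2) ((l b d : ℝ) ^ 2) ((l c d : ℝ) ^ 2) := by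
    rw [hl, hl, hl, hl, hl, hl]
    simp [dist_comm (p b) (p a), dist_comm (p c) (p a), dist_comm (p d) (p a),
      dist_comm (p c) (p b), dist_comm (p d) (p b), dist_comm (p d) (p c), Nat.factorial] at hq
    unfold gram8
    push_cast
    linear_combination 8 * hq
  unfold gram8 at h ⊢
  exact_mod_cast h

end

end Pool.Agent.H92.Simp
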