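import Pool.Agent.H92.Simp.Simplex

/-!
# Symmetries of rational simplices
-/

set_option autoImplicit false

namespace Pool.Agent.H92.Simp

section
variable {n : ℕ} {p : Fin (n + 1) → EuclideanSpace ℝ (Fin n)}

/-- `σ` permutes the vertices and preserves all distances -/
def IsSymm (p : Fin (n + 1) → EuclideanSpace ℝ (Fin n)) (σ : Equiv.Perm (Fin (n + 1))) : Prop :=
  ∀ i j, dist (p (σ i)) (p (σ j)) = dist (p i) (p j)

lemma IsSymm.mul {σ τ : Equiv.Perm (Fin (n + 1))} (hσ : IsSymm p σ) (hτ : IsSymm p τ) :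
    IsSymm p (σ * τ) := fun i j => by
  rw [Equiv.Perm.mul_apply, Equiv.Perm.mul_apply, hσ, hτ]

lemma isSymm_one : IsSymm p (1 : Equiv.Perm (Fin (n + 1))) := fun _ _ => rfl

lemma IsSymm.pow {σ : Equiv.Perm (Fin (n + 1))} (hσ : IsSymm p σ) (m : ℕ) : IsSymm p (σ ^ m) := by
  induction m with
  | zero => rw [pow_zero]; exact isSymm_one
  | succ m ih => rw [pow_succ]; exact ih.mul hσ

lemma IsSymm.inv {σ : Equiv.Perm (Fin (n + 1))} (hσ : IsSymm p σ) : IsSymm p σ⁻¹ := fun i j => by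
  have := hσ (σ⁻¹ i) (σ⁻¹ j)
  rw [show σ (σ⁻¹ i) = i from σ.apply_symm_apply i,
    show σ (σ⁻¹ j) = j from σ.apply_symm_apply j] at this
  exact this.symm

lemma len_symm {l : Fin (n + 1) → Fin (n + 1) → ℚ} (hl : ∀ i j, (l i j : ℝ) = dist (p i) (p j))
    (i j : Fin (n + 1)) : l i j = l j i := by
  have : (l i j : ℝ) = l j i := by rw [hl, hl, dist_comm]
  exact_mod_cast this

lemma len_ne_zero (hp : IsRationalSimplex p) {l : Fin (n + 1) → Fin (n + 1) → ℚ}
    (hl : ∀ i j, (l i j : ℝ) = dist (p i) (p j)) {i j : Fin (n + 1)} (hij : i ≠ j) :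
    l i j ≠ 0 := by
  intro h
  have h1 := hl i j
  rw [h, Rat.cast_zero, eq_comm, dist_eq_zero] at h1
  exact hij (hp.1.injective h1)

/-- the ultrametric inequality -/
theorem len_norm (hp : IsRationalSimplex p) {l : Fin (n + 1) → Fin (n + 1) → ℚ}
    (hl : ∀ i j, (l i j : ℝ) = dist (p i) (p j)) {q : ℕ} (hq : q.Prime) (hq4 : q = 2 ∨ q % 4 = 3)
    (i j k : Fin (n + 1)) :
    padicNorm q (l i k) ≤ max (padicNorm q (l i j)) (padicNorm q (l j k)) := by
  have : Fact q.Prime := ⟨hq⟩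
  by_cases hij : i = j
  · rw [hij]; exact le_max_right _ _
  by_cases hjk : j = k
  · rw [hjk]; exact le_max_left _ _
  by_cases hik : i = k
  · have : l k k = 0 := by
      have h1 := hl k k
      rw [dist_self] at h1
      exact_mod_cast h1
    rw [hik, this, padicNorm.zero]
    exact le_max_of_le_left (padicNorm.nonneg _)
  obtain ⟨s, hs⟩ := area hp hl hij hjk hik
  exact heron_norm hq4 hs

/-- no triangle has three sides of the same `2`-adic absolute value -/
theorem len_two (hp : IsRationalSimplex p) {l : Fin (n + 1) → Fin (n + 1) → ℚ}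
    (hl : ∀ i j, (l i j : ℝ) = dist (p i) (p j)) {i j k : Fin (n + 1)} (hij : i ≠ j)
    (hjk : j ≠ k) (hik : i ≠ k) (h1 : padicNorm 2 (l i j) = padicNorm 2 (l j k))
    (h2 : padicNorm 2 (l j k) = padicNorm 2 (l i k)) : False := by
  obtain ⟨s, hs⟩ := area hp hl hij hjk hik
  exact heron_two (len_ne_zero hp hl hij) hs h1 h2

/-- no four vertices have six mutual distances of the same `3`-adic absolute value -/
theorem len_three (hp : IsRationalSimplex p) {l : Fin (n + 1) → Fin (n + 1) → ℚ}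
    (hl : ∀ i j, (l i j : ℝ) = dist (p i) (p j)) (f : Fin 4 → Fin (n + 1))
    (hf : Function.Injective f) :
    ¬ ∃ r : ℚ, ∀ a b, a ≠ b → padicNorm 3 (l (f a) (f b)) = r := by
  rintro ⟨r, hr⟩
  have hf' : Function.Injective ![f 0, f 1, f 2, f 3] := by
    have : ![f 0, f 1, f 2, f 3] = f := by
      ext a; fin_cases a <;> rfl
    rw [this]; exact hf
  obtain ⟨T, -, hT⟩ := volume hp hl hf'
  have hr0 : r ≠ 0 := by
    rw [← hr 0 1 (by decide)]
    intro h0
    exact len_ne_zero hp hl (fun h => absurd (hf h) (by decide))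
      (padicNorm.zero_of_padicNorm_eq_zero h0)
  refine heron_three (l := ![l (f 0) (f 1), l (f 0) (f 2), l (f 0) (f 3), l (f 1) (f 2),
    l (f 1) (f 3), l (f 2) (f 3)]) hr0 ?_ hT
  intro i
  fin_cases i
  · exact hr 0 1 (by decide)
  · exact hr 0 2 (by decide)
  · exact hr 0 3 (by decide)
  · exact hr 1 2 (by decide)
  · exact hr 1 3 (by decide)
  · exact hr 2 3 (by decide)

lemma pow_apply_ne {τ : Equiv.Perm (Fin (n + 1))} {q : ℕ} (hq : q.Prime) (hτq : τ ^ q = 1)
    {x : Fin (n + 1)} (hx : τ x ≠ x) {m : ℕ} (hm : ¬ q ∣ m) : (τ ^ m) x ≠ x := by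
  intro h
  have h1 : Function.IsPeriodicPt τ m x := by
    rw [Function.IsPeriodicPt, Function.IsFixedPt, Equiv.Perm.iterate_eq_pow]; exact h
  have h2 : Function.IsPeriodicPt τ q x := by
    rw [Function.IsPeriodicPt, Function.IsFixedPt, Equiv.Perm.iterate_eq_pow, hτq]; rfl
  have h3 := h1.gcd h2
  have h4 : m.gcd q = 1 := (Nat.coprime_comm.1 ((Nat.Prime.coprime_iff_not_dvd hq).2 hm))
  rw [h4] at h3
  exact hx h3

/-- a symmetry of odd prime order does not exist -/
theorem odd_trivial (hp : IsRationalSimplex p) {τ : Equiv.Perm (Fin (n + 1))} (hτ : IsSymm p τ)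
    {q : ℕ} (hq : q.Prime) (hq2 : q ≠ 2) (hτq : τ ^ q = 1) : τ = 1 := by
  by_contra hne
  obtain ⟨x, hx⟩ : ∃ x, τ x ≠ x := by
    by_contra hcon
    push Not at hcon
    exact hne (Equiv.ext hcon)
  obtain ⟨l, hl⟩ := exists_len hp
  have hodd : q % 2 = 1 := (Nat.Prime.eq_two_or_odd hq).resolve_left hq2
  have hq3 : 3 ≤ q := by
    have := hq.two_le
    omega
  have hlτ : ∀ i j, l (τ i) (τ j) = l i j := by
    intro i j
    have : (l (τ i) (τ j) : ℝ) = l i j := by rw [hl, hl, hτ]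
    exact_mod_cast this
  have hlpow : ∀ (m : ℕ) (i j : Fin (n + 1)), l ((τ ^ m) i) ((τ ^ m) j) = l i j := by
    intro m
    induction m with
    | zero => intro i j; simp
    | succ m ih =>
      intro i j
      rw [pow_succ, Equiv.Perm.mul_apply, Equiv.Perm.mul_apply, ih, hlτ]
  set N : ℕ → ℚ := fun m => padicNorm 2 (l x ((τ ^ m) x)) with hN
  obtain ⟨j, hj, hjmin⟩ := Finset.exists_min_image (Finset.Icc 1 (q - 1)) N
    ⟨1, by rw [Finset.mem_Icc]; omega⟩
  rw [Finset.mem_Icc] at hj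
  have hjq : ¬ q ∣ j := fun h => by
    have := Nat.le_of_dvd (by omega) h
    omega
  have h2jq : ¬ q ∣ 2 * j := fun h => by
    rcases (Nat.Prime.dvd_mul hq).1 h with h1 | h1
    · have := Nat.le_of_dvd (by omega) h1
      omega
    · exact hjq h1
  have hmod : (τ ^ (2 * j)) = τ ^ ((2 * j) % q) := by
    conv_lhs => rw [← Nat.mod_add_div (2 * j) q, pow_add, pow_mul, hτq, one_pow, mul_one]
  have hmin2 : N j ≤ N (2 * j) := by
    have h1 : N (2 * j) = N ((2 * j) % q) := by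
      simp only [hN]; rw [hmod]
    rw [h1]
    apply hjmin
    rw [Finset.mem_Icc]
    have h2 := Nat.mod_lt (2 * j) (show 0 < q by omega)
    have h3 : (2 * j) % q ≠ 0 := fun h => h2jq (Nat.dvd_of_mod_eq_zero h)
    omega
  have h12 : padicNorm 2 (l ((τ ^ j) x) ((τ ^ (2 * j)) x)) = N j := by
    have : (τ ^ (2 * j)) x = (τ ^ j) ((τ ^ j) x) := by
      rw [← Equiv.Perm.mul_apply, ← pow_add, two_mul]
    rw [this]
    simp only [hN]
    rw [hlpow j x ((τ ^ j) x)]
  have hle := len_norm hp hl Nat.prime_two (Or.inl rfl) x ((τ ^ j) x) ((τ ^ (2 * j)) x)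
  rw [h12] at hle
  have hle' : N (2 * j) ≤ N j := by
    have : max (N j) (N j) = N j := max_self _
    calc N (2 * j) ≤ max (N j) (N j) := hle
      _ = N j := this
  have heq : N (2 * j) = N j := le_antisymm hle' hmin2
  refine len_two hp hl (i := x) (j := (τ ^ j) x) (k := (τ ^ (2 * j)) x) ?_ ?_ ?_ ?_ ?_
  · exact (pow_apply_ne hq hτq hx hjq).symm
  · have : (τ ^ (2 * j)) x = (τ ^ j) ((τ ^ j) x) := by
      rw [← Equiv.Perm.mul_apply, ← pow_add, two_mul]
    rw [this]
    intro h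
    exact pow_apply_ne hq hτq hx hjq ((τ ^ j).injective h).symm
  · exact (pow_apply_ne hq hτq hx h2jq).symm
  · rw [h12]
  · rw [h12]; exact heq.symm

/-- there is no symmetry of order four -/
theorem four_trivial (hp : IsRationalSimplex p) {τ : Equiv.Perm (Fin (n + 1))} (hτ : IsSymm p τ)
    (hτ4 : τ ^ 4 = 1) : τ ^ 2 = 1 := by
  by_contra hne
  obtain ⟨x, hx⟩ : ∃ x, (τ ^ 2) x ≠ x := by
    by_contra hcon
    push Not at hcon
    exact hne (Equiv.ext hcon)
  obtain ⟨l, hl⟩ := exists_len hp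
  have hlτ : ∀ i j, l (τ i) (τ j) = l i j := by
    intro i j
    have : (l (τ i) (τ j) : ℝ) = l i j := by rw [hl, hl, hτ]
    exact_mod_cast this
  have e2 : (τ ^ 2) x = τ (τ x) := by rw [pow_two, Equiv.Perm.mul_apply]
  have e4 : τ (τ (τ (τ x))) = x := by
    have : (τ ^ 4) x = τ (τ (τ (τ x))) := by
      rw [show (4 : ℕ) = 1 + 1 + 1 + 1 from rfl, pow_add, pow_add, pow_add, pow_one]
      simp only [Equiv.Perm.mul_apply]
    rw [← this, hτ4]; rfl
  rw [e2] at hx
  have h01 : x ≠ τ x := fun h => hx (by rw [← h, ← h])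
  have h02 : x ≠ τ (τ x) := hx.symm
  have h03 : x ≠ τ (τ (τ x)) := fun h => h01 (by conv_rhs => rw [h, e4])
  have h12 : τ x ≠ τ (τ x) := fun h => h01 (τ.injective h)
  have h13 : τ x ≠ τ (τ (τ x)) := fun h => h02 (τ.injective h)
  have h23 : τ (τ x) ≠ τ (τ (τ x)) := fun h => h12 (τ.injective h)
  have hinj : Function.Injective ![x, τ x, τ (τ x), τ (τ (τ x))] := by
    intro a b hab
    fin_cases a <;> fin_cases b <;>
      simp_all [h01.symm, h02.symm, h03.symm, h12.symm, h13.symm, h23.symm]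
  obtain ⟨s, hs⟩ := area hp hl h01 h12 h02
  obtain ⟨T, hT0, hT⟩ := volume hp hl hinj
  have l01 : l (τ x) (τ (τ x)) = l x (τ x) := hlτ _ _
  have l13 : l (τ x) (τ (τ (τ x))) = l x (τ (τ x)) := hlτ _ _
  have l23 : l (τ (τ x)) (τ (τ (τ x))) = l x (τ x) := by rw [hlτ, hlτ]
  have l03 : l x (τ (τ (τ x))) = l x (τ x) := by
    have h1 := hlτ (τ (τ (τ x))) x
    rw [e4] at h1
    rw [len_symm hl x (τ (τ (τ x))), ← h1]
  rw [l01] at hs
  rw [l01, l13, l23, l03] at hT
  have ha0 : l x (τ x) ≠ 0 := len_ne_zero hp hl h01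
  have hc0 : l x (τ (τ x)) ≠ 0 := len_ne_zero hp hl h02
  generalize l x (τ x) = a at *
  generalize l x (τ (τ x)) = c at *
  have hs' : s ^ 2 = c ^ 2 * (4 * a ^ 2 - c ^ 2) := by linear_combination hs
  have hT' : T ^ 2 = 2 * c ^ 4 * (2 * a ^ 2 - c ^ 2) := by
    unfold gram8 at hT
    linear_combination hT / 2
  refine quart_rat (s / (2 * c)) (c / 2) (T / (2 * c ^ 2) * a) ?_ ?_ ?_
  · exact div_ne_zero hc0 two_ne_zero
  · exact mul_ne_zero (div_ne_zero hT0 (mul_ne_zero two_ne_zero (pow_ne_zero _ hc0))) ha0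
  · have e1 : (s / (2 * c)) ^ 2 = a ^ 2 - c ^ 2 / 4 := by
      rw [div_pow, hs']
      field_simp
      ring
    have e3 : (T / (2 * c ^ 2)) ^ 2 = (2 * a ^ 2 - c ^ 2) / 2 := by
      rw [div_pow, hT']
      field_simp
    calc (s / (2 * c)) ^ 4 = ((s / (2 * c)) ^ 2) ^ 2 := by ring
      _ = (a ^ 2 - c ^ 2 / 4) ^ 2 := by rw [e1]
      _ = (c / 2) ^ 4 + ((2 * a ^ 2 - c ^ 2) / 2) * a ^ 2 := by ring
      _ = (c / 2) ^ 4 + (T / (2 * c ^ 2) * a) ^ 2 := by rw [mul_pow, e3]

/-- every symmetry of a rational simplex is an involution -/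
theorem symm_sq (hp : IsRationalSimplex p) {σ : Equiv.Perm (Fin (n + 1))} (hσ : IsSymm p σ) :
    σ * σ = 1 := by
  have hN0 : orderOf σ ≠ 0 := (orderOf_pos σ).ne'
  rcases Nat.eq_two_pow_or_exists_odd_prime_and_dvd (orderOf σ) with ⟨k, hk⟩ | ⟨q, hq, ⟨m, hm⟩, hqo⟩
  · rcases k with _ | _ | k
    · have : σ = 1 := by rw [← orderOf_eq_one_iff, hk, pow_zero]
      rw [this, mul_one]
    · have := pow_orderOf_eq_one σ
      rw [hk, zero_add, pow_one, pow_two] at this
      exact this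
    · exfalso
      have h1 := four_trivial hp (hσ.pow (2 ^ k)) (by
        rw [← pow_mul, show 2 ^ k * 4 = 2 ^ (k + 1 + 1) by ring, ← hk]
        exact pow_orderOf_eq_one σ)
      rw [← pow_mul] at h1
      have h2 := orderOf_dvd_of_pow_eq_one h1
      rw [hk] at h2
      have h3 := Nat.le_of_dvd (by positivity) h2
      have h4 : 2 ^ k * 2 < 2 ^ (k + 1 + 1) := by
        have : 0 < 2 ^ k := by positivity
        rw [pow_succ, pow_succ]; omega
      omega
  · exfalso
    have hm0 : 0 < m := Nat.pos_of_ne_zero (by rintro rfl; rw [mul_zero] at hm; exact hN0 hm)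
    have h1 := odd_trivial hp (hσ.pow m) hq (by rintro rfl; exact absurd hqo (by decide)) (by
      rw [← pow_mul, mul_comm, ← hm]; exact pow_orderOf_eq_one σ)
    have h2 := orderOf_dvd_of_pow_eq_one h1
    have h3 := Nat.le_of_dvd hm0 h2
    rw [hm] at h3
    have := hq.two_le
    nlinarith

end

end Pool.Agent.H92.Simp
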